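import Mathlib

/-!
Transposed Poisson structures, half-derivations and one-dimensional central extensions.
-/

namespace Q8.TPX

variable {L : Type*} [LieRing L] [LieAlgebra ℂ L]

/-- A transposed Poisson structure on the complex Lie algebra `L`: a bilinear, commutative and
associative product `μ` with `2 z·[x,y] = [z·x, y] + [x, z·y]`. -/
structure IsTransposedPoisson (μ : L →ₗ[ℂ] L →ₗ[ℂ] L) : Prop where
  comm : ∀ x y, μ x y = μ y x
  assoc : ∀ x y z, μ (μ x y) z = μ x (μ y z)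
  compat : ∀ x y z, (2 : ℂ) • μ z ⁅x, y⁆ = ⁅μ z x, y⁆ + ⁅x, μ z y⁆

/-- A half-derivation: `φ[x,y] = (1/2) ([φ x, y] + [x, φ y])`. -/
def IsHalfDerivation (φ : L →ₗ[ℂ] L) : Prop :=
  ∀ x y, φ ⁅x, y⁆ = (1 / 2 : ℂ) • (⁅φ x, y⁆ + ⁅x, φ y⁆)

variable (L) in
/-- A scalar-valued Lie algebra 2-cocycle on `L`. -/
structure Cocycle where
  /-- the underlying bilinear form -/
  form : L →ₗ[ℂ] L →ₗ[ℂ] ℂ
  alt : ∀ x, form x x = 0
  cyc : ∀ x y z, form ⁅x, y⁆ z + form ⁅y, z⁆ x + form ⁅z, x⁆ y = 0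

/-- The cocycle `ω` is a coboundary: `ω(x,y) = f([x,y])` for a linear functional `f`. -/
def Cocycle.IsCoboundary (ω : Cocycle L) : Prop :=
  ∃ f : L →ₗ[ℂ] ℂ, ∀ x y, ω.form x y = f ⁅x, y⁆

/-- The one-dimensional central extension `L_ω = L ⊕ ℂ c`; the pair `(x, a)` is `x + a c`. -/
def Ext (_ω : Cocycle L) : Type _ := L × ℂ

instance (ω : Cocycle L) : AddCommGroup (Ext ω) := (inferInstance : AddCommGroup (L × ℂ))
instance (ω : Cocycle L) : Module ℂ (Ext ω) := (inferInstance : Module ℂ (L × ℂ))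

/-- The bracket `[x + a c, y + b c] = [x,y] + ω(x,y) c`. -/
instance (ω : Cocycle L) : Bracket (Ext ω) (Ext ω) :=
  ⟨fun p q => ((⁅p.1, q.1⁆, ω.form p.1 q.1) : L × ℂ)⟩

lemma Cocycle.skew (ω : Cocycle L) (x y : L) : ω.form x y = - ω.form y x := by
  have h := ω.alt (x + y)
  simp only [map_add, LinearMap.add_apply, ω.alt, zero_add, add_zero] at h
  exact eq_neg_of_add_eq_zero_right h

lemma Cocycle.leib (ω : Cocycle L) (x y z : L) :
    ω.form x ⁅y, z⁆ = ω.form ⁅x, y⁆ z + ω.form y ⁅x, z⁆ := by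
  have h := ω.cyc x y z
  rw [ω.skew x ⁅y, z⁆, ω.skew y ⁅x, z⁆, ← lie_skew x z, map_neg, LinearMap.neg_apply]
  linear_combination -h

instance (ω : Cocycle L) : LieRing (Ext ω) where
  add_lie p q r := Prod.ext (add_lie p.1 q.1 r.1)
    (by show ω.form (p.1 + q.1) r.1 = ω.form p.1 r.1 + ω.form q.1 r.1
        rw [map_add, LinearMap.add_apply])
  lie_add p q r := Prod.ext (lie_add p.1 q.1 r.1) (map_add (ω.form p.1) q.1 r.1)
  lie_self p := Prod.ext (lie_self p.1) (ω.alt p.1)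
  leibniz_lie p q r := Prod.ext (leibniz_lie p.1 q.1 r.1) (ω.leib p.1 q.1 r.1)

instance (ω : Cocycle L) : LieAlgebra ℂ (Ext ω) where
  lie_smul c p q := Prod.ext (lie_smul c p.1 q.1) (map_smul (ω.form p.1) c q.1)

end Q8.TPX
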