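import Mathlib
import Pool.Agent.Q8.TPX.Defs

/-!
The example `L = 𝔤𝔩₂ ⋉ (V ⊕ V*)`, `V = ℂ²`.
-/

namespace Q8.TPX

/-- `L = 𝔤𝔩₂ ⋉ (V ⊕ V*)` with `V = ℂ²`: triples `(A, v, ξ)`. -/
def Ex : Type := Matrix (Fin 2) (Fin 2) ℂ × (Fin 2 → ℂ) × (Fin 2 → ℂ)

noncomputable section

instance : AddCommGroup Ex :=
  (inferInstance : AddCommGroup (Matrix (Fin 2) (Fin 2) ℂ × (Fin 2 → ℂ) × (Fin 2 → ℂ)))
instance : Module ℂ Ex :=
  (inferInstance : Module ℂ (Matrix (Fin 2) (Fin 2) ℂ × (Fin 2 → ℂ) × (Fin 2 → ℂ)))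

/-- constructor -/
def mk (A : Matrix (Fin 2) (Fin 2) ℂ) (v ξ : Fin 2 → ℂ) : Ex := (A, v, ξ)

/-- The bracket `[(A,v,ξ),(B,w,η)] = ([A,B], A w - B v, Bᵀ ξ - Aᵀ η)`. -/
instance : Bracket Ex Ex :=
  ⟨fun p q => mk (p.1 * q.1 - q.1 * p.1) (p.1.mulVec q.2.1 - q.1.mulVec p.2.1)
    (q.1.transpose.mulVec p.2.2 - p.1.transpose.mulVec q.2.2)⟩

lemma br (A B : Matrix (Fin 2) (Fin 2) ℂ) (v w ξ η : Fin 2 → ℂ) :
    ⁅mk A v ξ, mk B w η⁆ = mk (A * B - B * A) (A.mulVec w - B.mulVec v)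
      (B.transpose.mulVec ξ - A.transpose.mulVec η) := rfl

lemma mk_add (A B : Matrix (Fin 2) (Fin 2) ℂ) (v w ξ η : Fin 2 → ℂ) :
    mk A v ξ + mk B w η = mk (A + B) (v + w) (ξ + η) := rfl

lemma mk_smul (c : ℂ) (A : Matrix (Fin 2) (Fin 2) ℂ) (v ξ : Fin 2 → ℂ) :
    c • mk A v ξ = mk (c • A) (c • v) (c • ξ) := rfl

lemma mk_zero : (0 : Ex) = mk 0 0 0 := rfl

lemma mk_inj {A B : Matrix (Fin 2) (Fin 2) ℂ} {v w ξ η : Fin 2 → ℂ} :
    mk A v ξ = mk B w η ↔ A = B ∧ v = w ∧ ξ = η := by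
  constructor
  · intro h
    exact ⟨congrArg Prod.fst h, congrArg (fun p => p.2.1) h, congrArg (fun p => p.2.2) h⟩
  · rintro ⟨rfl, rfl, rfl⟩; rfl

lemma ex_mk (p : Ex) : ∃ A v ξ, p = mk A v ξ := ⟨p.1, p.2.1, p.2.2, rfl⟩

instance : LieRing Ex where
  add_lie p q r := by
    obtain ⟨A, v, ξ, rfl⟩ := ex_mk p
    obtain ⟨B, w, η, rfl⟩ := ex_mk q
    obtain ⟨C, u, ζ, rfl⟩ := ex_mk r
    simp only [mk_add, br]
    rw [mk_inj]
    refine ⟨by noncomm_ring, ?_, ?_⟩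
    · rw [Matrix.add_mulVec, Matrix.mulVec_add]; abel
    · rw [Matrix.transpose_add, Matrix.add_mulVec, Matrix.mulVec_add]; abel
  lie_add p q r := by
    obtain ⟨A, v, ξ, rfl⟩ := ex_mk p
    obtain ⟨B, w, η, rfl⟩ := ex_mk q
    obtain ⟨C, u, ζ, rfl⟩ := ex_mk r
    simp only [mk_add, br]
    rw [mk_inj]
    refine ⟨by noncomm_ring, ?_, ?_⟩
    · rw [Matrix.add_mulVec, Matrix.mulVec_add]; abel
    · rw [Matrix.transpose_add, Matrix.add_mulVec, Matrix.mulVec_add]; abel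
  lie_self p := by
    obtain ⟨A, v, ξ, rfl⟩ := ex_mk p
    simp [br, mk_zero]
  leibniz_lie p q r := by
    obtain ⟨A, v, ξ, rfl⟩ := ex_mk p
    obtain ⟨B, w, η, rfl⟩ := ex_mk q
    obtain ⟨C, u, ζ, rfl⟩ := ex_mk r
    simp only [br, mk_add]
    rw [mk_inj]
    refine ⟨by noncomm_ring, ?_, ?_⟩
    · simp only [Matrix.sub_mulVec, Matrix.mulVec_sub, Matrix.mulVec_mulVec]; abel
    · simp only [Matrix.transpose_sub, Matrix.transpose_mul, Matrix.sub_mulVec, Matrix.mulVec_sub,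
        Matrix.mulVec_mulVec]; abel

instance : LieAlgebra ℂ Ex where
  lie_smul c p q := by
    obtain ⟨A, v, ξ, rfl⟩ := ex_mk p
    obtain ⟨B, w, η, rfl⟩ := ex_mk q
    simp only [br, mk_smul]
    rw [mk_inj]
    refine ⟨?_, ?_, ?_⟩
    · rw [Matrix.mul_smul, Matrix.smul_mul, smul_sub]
    · rw [Matrix.mulVec_smul, Matrix.smul_mulVec, smul_sub]
    · rw [Matrix.mulVec_smul, Matrix.transpose_smul, Matrix.smul_mulVec, smul_sub]

/-- The cocycle `ω((A,v,ξ),(B,w,η)) = η(v) - ξ(w)`. -/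
def om : Cocycle Ex where
  form := LinearMap.mk₂ ℂ (fun p q => q.2.2 ⬝ᵥ p.2.1 - p.2.2 ⬝ᵥ q.2.1)
    (by
      intro p p' q
      obtain ⟨A, v, ξ, rfl⟩ := ex_mk p
      obtain ⟨A', v', ξ', rfl⟩ := ex_mk p'
      obtain ⟨B, w, η, rfl⟩ := ex_mk q
      show η ⬝ᵥ (v + v') - (ξ + ξ') ⬝ᵥ w = (η ⬝ᵥ v - ξ ⬝ᵥ w) + (η ⬝ᵥ v' - ξ' ⬝ᵥ w)
      rw [dotProduct_add, add_dotProduct]; ring)
    (by
      intro c p q
      obtain ⟨A, v, ξ, rfl⟩ := ex_mk p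
      obtain ⟨B, w, η, rfl⟩ := ex_mk q
      show η ⬝ᵥ (c • v) - (c • ξ) ⬝ᵥ w = c • (η ⬝ᵥ v - ξ ⬝ᵥ w)
      rw [dotProduct_smul, smul_dotProduct, smul_sub])
    (by
      intro p q q'
      obtain ⟨A, v, ξ, rfl⟩ := ex_mk p
      obtain ⟨B, w, η, rfl⟩ := ex_mk q
      obtain ⟨B', w', η', rfl⟩ := ex_mk q'
      show (η + η') ⬝ᵥ v - ξ ⬝ᵥ (w + w') = (η ⬝ᵥ v - ξ ⬝ᵥ w) + (η' ⬝ᵥ v - ξ ⬝ᵥ w')
      rw [dotProduct_add, add_dotProduct]; ring)
    (by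
      intro c p q
      obtain ⟨A, v, ξ, rfl⟩ := ex_mk p
      obtain ⟨B, w, η, rfl⟩ := ex_mk q
      show (c • η) ⬝ᵥ v - ξ ⬝ᵥ (c • w) = c • (η ⬝ᵥ v - ξ ⬝ᵥ w)
      rw [dotProduct_smul, smul_dotProduct, smul_sub])
  alt p := by
    show p.2.2 ⬝ᵥ p.2.1 - p.2.2 ⬝ᵥ p.2.1 = 0
    rw [sub_self]
  cyc p q r := by
    obtain ⟨A, v, ξ, rfl⟩ := ex_mk p
    obtain ⟨B, w, η, rfl⟩ := ex_mk q
    obtain ⟨C, u, ζ, rfl⟩ := ex_mk r
    show (ζ ⬝ᵥ (A.mulVec w - B.mulVec v) - (B.transpose.mulVec ξ - A.transpose.mulVec η) ⬝ᵥ u) +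
      (ξ ⬝ᵥ (B.mulVec u - C.mulVec w) - (C.transpose.mulVec η - B.transpose.mulVec ζ) ⬝ᵥ v) +
      (η ⬝ᵥ (C.mulVec v - A.mulVec u) - (A.transpose.mulVec ζ - C.transpose.mulVec ξ) ⬝ᵥ w) = 0
    simp only [dotProduct, Matrix.mulVec, Matrix.transpose_apply, Fin.sum_univ_two, Pi.sub_apply]
    ring

lemma om_mk (A B : Matrix (Fin 2) (Fin 2) ℂ) (v w ξ η : Fin 2 → ℂ) :
    om.form (mk A v ξ) (mk B w η) = η ⬝ᵥ v - ξ ⬝ᵥ w := rfl

lemma om_not_coboundary : ¬ om.IsCoboundary := by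
  rintro ⟨f, hf⟩
  have h := hf (mk 0 ![1, 0] 0) (mk 0 0 ![1, 0])
  rw [om_mk, br] at h
  have h0 : mk ((0 : Matrix (Fin 2) (Fin 2) ℂ) * 0 - 0 * 0)
      ((0 : Matrix (Fin 2) (Fin 2) ℂ).mulVec 0 - (0 : Matrix (Fin 2) (Fin 2) ℂ).mulVec ![1, 0])
      ((0 : Matrix (Fin 2) (Fin 2) ℂ).transpose.mulVec 0 -
        (0 : Matrix (Fin 2) (Fin 2) ℂ).transpose.mulVec ![1, 0]) = 0 := by
    rw [mk_zero, mk_inj]
    simp
  rw [h0, map_zero] at h
  simp at h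

/-- every half-derivation of `Ex` is a scalar. -/
theorem half_scalar (φ : Ex →ₗ[ℂ] Ex) (h : IsHalfDerivation φ) : ∃ c : ℂ, ∀ x, φ x = c • x := by
  obtain ⟨U, v, ξ, hU⟩ := ex_mk (φ (mk 1 0 0))
  -- multiply the defining identity by 2
  have h2 : ∀ x y, (2 : ℂ) • φ ⁅x, y⁆ = ⁅φ x, y⁆ + ⁅x, φ y⁆ := by
    intro x y
    rw [h x y, smul_smul]
    norm_num
  -- action on gl₂
  have hY : ∀ Y : Matrix (Fin 2) (Fin 2) ℂ, U * Y - Y * U = 0 ∧
      ∃ Z, φ (mk Y 0 0) = mk Z (Y.mulVec v) (Y.transpose.mulVec ξ) := by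
    intro Y
    obtain ⟨Z, w, η, hZ⟩ := ex_mk (φ (mk Y 0 0))
    have h3 := h2 (mk 1 0 0) (mk Y 0 0)
    rw [hU, hZ, br, br, br, mk_add] at h3
    have h4 : (mk (1 * Y - Y * 1) ((1 : Matrix (Fin 2) (Fin 2) ℂ).mulVec 0 - Y.mulVec 0)
      (Y.transpose.mulVec 0 - (1 : Matrix (Fin 2) (Fin 2) ℂ).transpose.mulVec 0)) = 0 := by
      rw [mk_zero, mk_inj]; simp
    rw [h4, map_zero, smul_zero, mk_zero, mk_inj] at h3
    obtain ⟨e1, e2, e3⟩ := h3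
    simp only [Matrix.mulVec_zero, Matrix.one_mulVec, Matrix.transpose_one, zero_sub, sub_zero,
      one_mul, mul_one, sub_self, add_zero] at e1 e2 e3
    refine ⟨e1.symm, Z, ?_⟩
    rw [hZ, mk_inj]
    refine ⟨rfl, ?_, ?_⟩
    · have := e2.symm
      rw [neg_add_eq_zero] at this
      exact this.symm
    · have := e3.symm
      rw [← sub_eq_add_neg, sub_eq_zero] at this
      exact this.symm
  -- U is a scalar
  have hUs : ∃ c : ℂ, U = c • (1 : Matrix (Fin 2) (Fin 2) ℂ) := by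
    refine ⟨U 0 0, ?_⟩
    have e01 := (hY !![0, 1; 0, 0]).1
    have e10 := (hY !![0, 0; 1, 0]).1
    have a1 := congrFun (congrFun e01 0) 0
    have a2 := congrFun (congrFun e01 0) 1
    have a3 := congrFun (congrFun e10 0) 0
    simp [Matrix.mul_apply, Fin.sum_univ_two, Matrix.vecMul, dotProduct] at a1 a2 a3
    ext i j
    fin_cases i <;> fin_cases j
    · simp
    · simpa using a3
    · simpa using a1
    · simp
      linear_combination -a2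
  obtain ⟨c, hc⟩ := hUs
  -- subtract
  let ψ : Ex →ₗ[ℂ] Ex := φ - c • LinearMap.id
  have hψ2 : ∀ x y, (2 : ℂ) • ψ ⁅x, y⁆ = ⁅ψ x, y⁆ + ⁅x, ψ y⁆ := by
    intro x y
    simp only [ψ, LinearMap.sub_apply, LinearMap.smul_apply, LinearMap.id_apply, sub_lie, lie_sub,
      smul_lie, lie_smul, smul_sub, h2]
    rw [two_smul]
    abel
  have hψ1 : ψ (mk 1 0 0) = mk 0 v ξ := by
    simp only [ψ, LinearMap.sub_apply, LinearMap.smul_apply, LinearMap.id_apply, hU, hc]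
    show mk (c • 1 - c • 1) (v - c • 0) (ξ - c • 0) = mk 0 v ξ
    rw [mk_inj]; simp
  have hψY : ∀ Y : Matrix (Fin 2) (Fin 2) ℂ, ∃ Z, ψ (mk Y 0 0) =
      mk Z (Y.mulVec v) (Y.transpose.mulVec ξ) := by
    intro Y
    obtain ⟨Z, hZ⟩ := (hY Y).2
    refine ⟨Z - c • Y, ?_⟩
    simp only [ψ, LinearMap.sub_apply, LinearMap.smul_apply, LinearMap.id_apply, hZ]
    show mk (Z - c • Y) (Y.mulVec v - c • 0) (Y.transpose.mulVec ξ - c • 0) = _
    rw [mk_inj]; simp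
  have hψV : ∀ w, ψ (mk 0 w 0) = 0 := by
    intro w
    obtain ⟨Z, w', η', hZ⟩ := ex_mk (ψ (mk 0 w 0))
    have h3 := hψ2 (mk 1 0 0) (mk 0 w 0)
    rw [hψ1, br, br] at h3
    have h4 : mk ((1 : Matrix (Fin 2) (Fin 2) ℂ) * 0 - 0 * 1)
        ((1 : Matrix (Fin 2) (Fin 2) ℂ).mulVec w - (0 : Matrix (Fin 2) (Fin 2) ℂ).mulVec 0)
        ((0 : Matrix (Fin 2) (Fin 2) ℂ).transpose.mulVec 0 -
          (1 : Matrix (Fin 2) (Fin 2) ℂ).transpose.mulVec 0) = mk 0 w 0 := by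
      rw [mk_inj]; simp
    rw [h4, hZ, br, mk_add, mk_smul, mk_inj] at h3
    obtain ⟨e1, e2, e3⟩ := h3
    simp only [Matrix.mulVec_zero, Matrix.one_mulVec, Matrix.transpose_one, zero_sub, sub_zero,
      one_mul, mul_one, sub_self, add_zero, Matrix.zero_mulVec, Matrix.transpose_zero,
      zero_add, mul_zero, zero_mul] at e1 e2 e3
    rw [hZ, mk_zero, mk_inj]
    refine ⟨?_, ?_, ?_⟩
    · have : (2 : ℂ) • Z = 0 := e1
      exact (smul_eq_zero.1 this).resolve_left two_ne_zero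
    · have : (2 : ℂ) • w' = w' := e2
      rw [two_smul] at this
      simpa using this
    · have : (2 : ℂ) • η' = - η' := e3
      have h5 : (3 : ℂ) • η' = 0 := by
        rw [show (3 : ℂ) = 2 + 1 by norm_num, add_smul, this, one_smul]; simp
      exact (smul_eq_zero.1 h5).resolve_left (by norm_num)
  have hψW : ∀ η, ψ (mk 0 0 η) = 0 := by
    intro η
    obtain ⟨Z, w', η', hZ⟩ := ex_mk (ψ (mk 0 0 η))
    have h3 := hψ2 (mk 1 0 0) (mk 0 0 η)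
    rw [hψ1, br, br] at h3
    have h4 : mk ((1 : Matrix (Fin 2) (Fin 2) ℂ) * 0 - 0 * 1)
        ((1 : Matrix (Fin 2) (Fin 2) ℂ).mulVec 0 - (0 : Matrix (Fin 2) (Fin 2) ℂ).mulVec 0)
        ((0 : Matrix (Fin 2) (Fin 2) ℂ).transpose.mulVec 0 -
          (1 : Matrix (Fin 2) (Fin 2) ℂ).transpose.mulVec η) = (-1 : ℂ) • mk 0 0 η := by
      rw [mk_smul, mk_inj]; simp
    rw [h4, map_smul, hZ, br, mk_add, mk_smul, mk_smul, mk_inj] at h3
    obtain ⟨e1, e2, e3⟩ := h3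
    simp only [Matrix.mulVec_zero, Matrix.one_mulVec, Matrix.transpose_one, zero_sub, sub_zero,
      one_mul, mul_one, sub_self, add_zero, Matrix.zero_mulVec, Matrix.transpose_zero,
      zero_add, mul_zero, zero_mul, smul_smul] at e1 e2 e3
    rw [hZ, mk_zero, mk_inj]
    refine ⟨?_, ?_, ?_⟩
    · have : ((2 : ℂ) * -1) • Z = 0 := e1
      exact (smul_eq_zero.1 this).resolve_left (by norm_num)
    · have : ((2 : ℂ) * -1) • w' = w' := e2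
      have h5 : (3 : ℂ) • w' = 0 := by
        rw [show (3 : ℂ) = 1 - 2 * -1 by norm_num, sub_smul, this, one_smul, sub_self]
      exact (smul_eq_zero.1 h5).resolve_left (by norm_num)
    · have : ((2 : ℂ) * -1) • η' = - η' := e3
      have h5 : (1 : ℂ) • η' = 0 := by
        rw [show (1 : ℂ) = -(2 * -1) - 1 by norm_num, sub_smul, neg_smul, this, one_smul]; simp
      rwa [one_smul] at h5
  -- ψ (mk Y 0 0) has no gl₂ part
  have hψY' : ∀ Y : Matrix (Fin 2) (Fin 2) ℂ, ψ (mk Y 0 0) =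
      mk 0 (Y.mulVec v) (Y.transpose.mulVec ξ) := by
    intro Y
    obtain ⟨Z, hZ⟩ := hψY Y
    have hz : ∀ w, Z.mulVec w = 0 := by
      intro w
      have h3 := hψ2 (mk Y 0 0) (mk 0 w 0)
      rw [hψV, hZ, br, br, lie_zero, add_zero] at h3
      have h4 : mk (Y * 0 - 0 * Y) (Y.mulVec w - (0 : Matrix (Fin 2) (Fin 2) ℂ).mulVec 0)
        ((0 : Matrix (Fin 2) (Fin 2) ℂ).transpose.mulVec 0 - Y.transpose.mulVec 0) =
          mk 0 (Y.mulVec w) 0 := by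
        rw [mk_inj]; simp
      rw [h4, hψV, smul_zero, mk_zero, mk_inj] at h3
      have := h3.2.1
      simpa using this.symm
    have hZ0 : Z = 0 := by
      ext i j
      have := congrFun (hz (Pi.single j 1)) i
      simpa using this
    rw [hZ, hZ0]
  -- v = 0 and ξ = 0
  have hbr := hψ2 (mk !![0, 1; 0, 0] 0 0) (mk !![0, 0; 1, 0] 0 0)
  rw [hψY', hψY', br, br, br, mk_add] at hbr
  have h4 : mk (!![0, 1; 0, 0] * !![0, 0; 1, 0] - !![0, 0; 1, 0] * !![0, 1; 0, 0])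
      ((!![0, 1; 0, 0] : Matrix (Fin 2) (Fin 2) ℂ).mulVec 0 -
        (!![0, 0; 1, 0] : Matrix (Fin 2) (Fin 2) ℂ).mulVec 0)
      ((!![0, 0; 1, 0] : Matrix (Fin 2) (Fin 2) ℂ).transpose.mulVec 0 -
        (!![0, 1; 0, 0] : Matrix (Fin 2) (Fin 2) ℂ).transpose.mulVec 0) =
      mk !![1, 0; 0, -1] 0 0 := by
    rw [mk_inj]
    refine ⟨?_, by simp, by simp⟩
    ext i j
    fin_cases i <;> fin_cases j <;> simp [Matrix.mul_apply, Fin.sum_univ_two]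
  rw [h4, hψY', mk_smul, mk_inj] at hbr
  obtain ⟨-, e2, e3⟩ := hbr
  have v0 : v = 0 := by
    have a0 := congrFun e2 0
    have a1 := congrFun e2 1
    simp [Matrix.mulVec, dotProduct, Fin.sum_univ_two, Matrix.vecHead, Matrix.vecTail] at a0 a1
    ext i
    fin_cases i
    · show v 0 = 0
      linear_combination a0
    · show v 1 = 0
      linear_combination a1
  have ξ0 : ξ = 0 := by
    have a0 := congrFun e3 0
    have a1 := congrFun e3 1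
    simp [Matrix.mulVec, dotProduct, Fin.sum_univ_two, Matrix.vecHead, Matrix.vecTail] at a0 a1
    ext i
    fin_cases i
    · show ξ 0 = 0
      linear_combination a0
    · show ξ 1 = 0
      linear_combination a1
  refine ⟨c, ?_⟩
  have hψ0 : ∀ x, ψ x = 0 := by
    intro x
    obtain ⟨A, w, η, rfl⟩ := ex_mk x
    have hsplit : mk A w η = mk A 0 0 + mk 0 w 0 + mk 0 0 η := by
      rw [mk_add, mk_add, mk_inj]; simp
    rw [hsplit, map_add, map_add, hψY', hψV, hψW, v0, ξ0, mk_zero, mk_add, mk_add, mk_inj]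
    simp
  intro x
  have := hψ0 x
  simp only [ψ, LinearMap.sub_apply, LinearMap.smul_apply, LinearMap.id_apply] at this
  exact sub_eq_zero.1 this

end

end Q8.TPX
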