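import Mathlib
import Pool.Agent.Q8.TPX.Ex

/-!
Conclusions for `L = 𝔤𝔩₂ ⋉ (V ⊕ V*)`.
-/

namespace Q8.TPX

noncomputable section

instance : Module.Finite ℂ Ex :=
  (inferInstance : Module.Finite ℂ (Matrix (Fin 2) (Fin 2) ℂ × (Fin 2 → ℂ) × (Fin 2 → ℂ)))

/-- multiplications of a transposed Poisson structure are half-derivations -/
lemma tp_half {L : Type*} [LieRing L] [LieAlgebra ℂ L] {μ : L →ₗ[ℂ] L →ₗ[ℂ] L}
    (h : IsTransposedPoisson μ) (z : L) : IsHalfDerivation (μ z) := by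
  intro x y
  rw [← h.compat, smul_smul]
  norm_num

lemma no_tp (μ : Ex →ₗ[ℂ] Ex →ₗ[ℂ] Ex) (h : IsTransposedPoisson μ) : μ = 0 := by
  choose c hc using fun z => half_scalar (μ z) (tp_half h z)
  let e₁ : Ex := mk 0 ![1, 0] 0
  let e₂ : Ex := mk 0 0 ![1, 0]
  have h12 : c e₁ • e₂ = c e₂ • e₁ := by rw [← hc, ← hc, h.comm]
  have hc1 : c e₁ = 0 := by
    rw [mk_smul, mk_smul, mk_inj] at h12
    have := congrFun h12.2.2 0
    simpa using this
  have hz : ∀ z, c z = 0 := by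
    intro z
    have h1 : c z • e₁ = 0 := by rw [← hc, h.comm, hc, hc1, zero_smul]
    rw [mk_smul, mk_zero, mk_inj] at h1
    have := congrFun h1.2.1 0
    simpa using this
  ext z x
  rw [hc, hz, zero_smul]
  rfl

/-- the functional `(A, v, ξ) ↦ tr A` on the central extension -/
def tr : Ext om →ₗ[ℂ] ℂ where
  toFun p := p.1.1.trace
  map_add' p q := Matrix.trace_add _ _
  map_smul' c p := Matrix.trace_smul _ _

lemma tr_lie (p q : Ext om) : tr ⁅p, q⁆ = 0 := by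
  show (p.1.1 * q.1.1 - q.1.1 * p.1.1).trace = 0
  rw [Matrix.trace_sub, Matrix.trace_mul_comm, sub_self]

/-- the central element `c` -/
def cc : Ext om := (0, 1)

lemma cc_lie (p : Ext om) : ⁅cc, p⁆ = 0 := by
  refine Prod.ext ?_ ?_
  · show ⁅(0 : Ex), p.1⁆ = 0
    rw [zero_lie]
  · show om.form 0 p.1 = 0
    rw [map_zero, LinearMap.zero_apply]

lemma lie_cc (p : Ext om) : ⁅p, cc⁆ = 0 := by rw [← lie_skew, cc_lie, neg_zero]

lemma cc_ne : cc ≠ 0 := by
  intro h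
  have : (1 : ℂ) = 0 := congrArg Prod.snd h
  exact one_ne_zero this

lemma tr_cc : tr cc = 0 := by
  show (0 : Matrix (Fin 2) (Fin 2) ℂ).trace = 0
  simp

/-- the product `x · y = tr(x) tr(y) c` -/
def prodTP : Ext om →ₗ[ℂ] Ext om →ₗ[ℂ] Ext om :=
  LinearMap.mk₂ ℂ (fun p q => (tr p * tr q) • cc)
    (by intro p p' q; rw [map_add, add_mul, add_smul])
    (by intro c p q; rw [map_smul, smul_eq_mul, mul_assoc, mul_smul])
    (by intro p q q'; rw [map_add, mul_add, add_smul])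
    (by intro c p q; rw [map_smul, smul_eq_mul, mul_left_comm, mul_smul])

lemma prodTP_apply (p q : Ext om) : prodTP p q = (tr p * tr q) • cc := rfl

lemma prodTP_tp : IsTransposedPoisson prodTP where
  comm p q := by rw [prodTP_apply, prodTP_apply, mul_comm]
  assoc p q r := by
    rw [prodTP_apply (prodTP p q), prodTP_apply p q, prodTP_apply p, prodTP_apply q r, map_smul,
      map_smul, tr_cc]
    simp
  compat p q r := by
    simp only [prodTP_apply, tr_lie, mul_zero, zero_smul, smul_zero, smul_lie, lie_smul, cc_lie,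
      lie_cc, add_zero]

/-- the element `(1, 0, 0)` -/
def dd : Ext om := (mk 1 0 0, 0)

lemma tr_dd : tr dd = 2 := by
  show (1 : Matrix (Fin 2) (Fin 2) ℂ).trace = 2
  simp

lemma prodTP_ne : prodTP ≠ 0 := by
  intro h
  have h1 : prodTP dd dd = 0 := by rw [h]; rfl
  rw [prodTP_apply, tr_dd] at h1
  rcases smul_eq_zero.1 h1 with h2 | h2
  · norm_num at h2
  · exact cc_ne h2

/-- the map `x ↦ tr(x) c` -/
def halfD : Ext om →ₗ[ℂ] Ext om := tr.smulRight cc

lemma halfD_half : IsHalfDerivation halfD := by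
  intro p q
  simp only [halfD, LinearMap.smulRight_apply, tr_lie, zero_smul, smul_lie, lie_smul, cc_lie,
    lie_cc, smul_zero, add_zero]

lemma halfD_ne (c : ℂ) : halfD ≠ c • LinearMap.id := by
  intro h
  have h1 : halfD cc = c • cc := by rw [h]; rfl
  have h2 : halfD dd = c • dd := by rw [h]; rfl
  rw [halfD, LinearMap.smulRight_apply, tr_cc, zero_smul] at h1
  have hc : c = 0 := (smul_eq_zero.1 h1.symm).resolve_right cc_ne
  rw [halfD, LinearMap.smulRight_apply, tr_dd, hc, zero_smul] at h2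
  exact (smul_ne_zero two_ne_zero cc_ne) h2

theorem q1 : ∃ (L : Type) (_ : LieRing L) (_ : LieAlgebra ℂ L) (ω : Cocycle L),
    Module.Finite ℂ L ∧ (∀ μ : L →ₗ[ℂ] L →ₗ[ℂ] L, IsTransposedPoisson μ → μ = 0) ∧
      ¬ ω.IsCoboundary ∧
      ∃ μ : Ext ω →ₗ[ℂ] Ext ω →ₗ[ℂ] Ext ω, IsTransposedPoisson μ ∧ μ ≠ 0 :=
  ⟨Ex, inferInstance, inferInstance, om, inferInstance, no_tp, om_not_coboundary, prodTP, prodTP_tp,
    prodTP_ne⟩

theorem q2 : ∃ (L : Type) (_ : LieRing L) (_ : LieAlgebra ℂ L) (ω : Cocycle L),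
    Module.Finite ℂ L ∧ (∀ φ : L →ₗ[ℂ] L, IsHalfDerivation φ → ∃ c : ℂ, φ = c • LinearMap.id) ∧
      ¬ ω.IsCoboundary ∧
      ∃ φ : Ext ω →ₗ[ℂ] Ext ω, IsHalfDerivation φ ∧ ∀ c : ℂ, φ ≠ c • LinearMap.id :=
  ⟨Ex, inferInstance, inferInstance, om, inferInstance, fun φ h => by
    obtain ⟨c, hc⟩ := half_scalar φ h
    exact ⟨c, LinearMap.ext hc⟩, om_not_coboundary, halfD, halfD_half, halfD_ne⟩

end

end Q8.TPX
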